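import Mathlib
import Pool.Agent.H577R3.RM.Stmts

/-! # Size of the minors of the matrix of the Fox derivatives -/

set_option autoImplicit false

namespace Pool.Agent.H40R3.RM

open Pool.Agent.H577R3 Pool.Agent.H577R3.RM

/-- the coefficient -/
def cf {n ℓ : ℕ} (w : Fin ℓ → Lt n) (l : Fin n) (i : Fin ℓ) : ℤ :=
  if (w i).1 = l then (if (w i).2 then 1 else -1) else 0

/-- the exponent -/
def uf {n ℓ : ℕ} (w : Fin ℓ → Lt n) (i : Fin ℓ) : Fin n → ℤ :=
  if (w i).2 then pos w i.1 else pos w (i.1 + 1)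

theorem fox_eq {n ℓ : ℕ} (w : Fin ℓ → Lt n) (l : Fin n) :
    fox w l = ∑ i : Fin ℓ, cf w l i • X (uf w i) := by
  unfold fox
  refine Finset.sum_congr rfl fun i _ => ?_
  unfold cf uf
  by_cases h1 : (w i).1 = l
  · by_cases h2 : (w i).2 = true
    · simp [h1, h2]
    · simp [h1, h2]
  · simp [h1]

theorem abs_cf {n ℓ : ℕ} (w : Fin ℓ → Lt n) (l : Fin n) (i : Fin ℓ) : |cf w l i| ≤ 1 := by
  unfold cf
  split_ifs <;> simp

theorem abs_vec {n : ℕ} (a : Lt n) (l : Fin n) : |vec a l| ≤ 1 := by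
  unfold vec
  split_ifs
  · by_cases h : l = a.1
    · subst h
      simp
    · simp [h]
  · by_cases h : l = a.1
    · subst h
      simp
    · simp [h]

theorem abs_pos {n ℓ : ℕ} (w : Fin ℓ → Lt n) (j : ℕ) (l : Fin n) : |pos w j l| ≤ ℓ := by
  unfold pos
  rw [Finset.sum_apply]
  refine (Finset.abs_sum_le_sum_abs _ _).trans ?_
  calc ∑ i : Fin ℓ, |(if i.1 < j then vec (w i) else 0) l| ≤ ∑ _i : Fin ℓ, (1 : ℤ) := by
        refine Finset.sum_le_sum fun i _ => ?_
        split_ifs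
        · exact abs_vec _ _
        · simp
    _ = ℓ := by simp

theorem abs_uf {n ℓ : ℕ} (w : Fin ℓ → Lt n) (i : Fin ℓ) (l : Fin n) : |uf w i l| ≤ ℓ := by
  unfold uf
  split_ifs
  · exact abs_pos _ _ _
  · exact abs_pos _ _ _

theorem prod_X {n : ℕ} {ι : Type} (s : Finset ι) (c : ι → ℤ) (u : ι → Fin n → ℤ) :
    ∏ x ∈ s, (c x • X (u x) : Lam n) = (∏ x ∈ s, c x) • X (∑ x ∈ s, u x) := by
  classical
  induction s using Finset.induction_on with
  | empty =>
    rw [Finset.prod_empty, Finset.prod_empty, Finset.sum_empty, one_smul]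
    exact (map_one (MonoidAlgebra.of ℤ (Zm n))).symm
  | insert a s ha ih =>
    rw [Finset.prod_insert ha, Finset.prod_insert ha, Finset.sum_insert ha, ih]
    have h1 : (X (u a + ∑ x ∈ s, u x) : Lam n) = X (u a) * X (∑ x ∈ s, u x) := by
      show MonoidAlgebra.of ℤ (Zm n) (Multiplicative.ofAdd (u a + ∑ x ∈ s, u x)) = _
      rw [ofAdd_add, map_mul]
    rw [h1, smul_mul_smul_comm]

/-- Size with an arbitrary index type. -/
theorem Sz.of_fintype {n : ℕ} {E : ℕ} {h : Lam n} {ι : Type} [Fintype ι]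
    (u : ι → Fin n → ℤ) (c : ι → ℤ) (h1 : Fintype.card ι ≤ E) (h2 : ∀ i, |c i| ≤ (E : ℤ))
    (h3 : ∀ i l, |u i l| ≤ (E : ℤ)) (h4 : h = ∑ i, c i • X (u i)) : Sz E h := by
  refine ⟨Fintype.card ι, fun i => u ((Fintype.equivFin ι).symm i),
    fun i => c ((Fintype.equivFin ι).symm i), h1, fun i => h2 _, fun i l => h3 _ _, ?_⟩
  rw [h4]
  exact (Equiv.sum_comp (Fintype.equivFin ι).symm (fun i => c i • (X (u i) : Lam n))).symm

theorem taskSZ' (n ℓ m : ℕ) (κ : Type) [Fintype κ] [DecidableEq κ] (hκ : Fintype.card κ ≤ m)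
    (e : κ → Fin m) (r : Fin m → Fin ℓ → Lt n) (a : κ → Fin n) (hmn : m ≤ n) :
    Sz (EE n ℓ) (Matrix.det (Matrix.of fun l l' : κ => fox (r (e l)) (a l'))) := by
  have hk : Fintype.card κ ≤ n := hκ.trans hmn
  have hEE : (n * (ℓ + 1) + 2) ≤ EE n ℓ := by
    unfold EE
    exact Nat.le_self_pow (by omega) _
  have h1E : 1 ≤ EE n ℓ := by omega
  refine Sz.of_fintype (ι := Equiv.Perm κ × (κ → Fin ℓ))
    (u := fun p => ∑ x, uf (r (e (p.1 x))) (p.2 x))
    (c := fun p => (Equiv.Perm.sign p.1 : ℤ) * ∏ x, cf (r (e (p.1 x))) (a x) (p.2 x)) ?_ ?_ ?_ ?_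
  · rw [Fintype.card_prod, Fintype.card_perm, Fintype.card_fun, Fintype.card_fin]
    have h1 : (Fintype.card κ).factorial ≤ (Fintype.card κ) ^ (Fintype.card κ) :=
      Nat.factorial_le_pow _
    have h2 : (Fintype.card κ) ^ (Fintype.card κ) ≤ n ^ (Fintype.card κ) :=
      Nat.pow_le_pow_left hk _
    calc (Fintype.card κ).factorial * ℓ ^ (Fintype.card κ)
        ≤ n ^ (Fintype.card κ) * ℓ ^ (Fintype.card κ) := Nat.mul_le_mul_right _ (h1.trans h2)
      _ = (n * ℓ) ^ (Fintype.card κ) := (mul_pow _ _ _).symm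
      _ ≤ (n * (ℓ + 1) + 2) ^ (Fintype.card κ) := by
          refine Nat.pow_le_pow_left ?_ _
          nlinarith
      _ ≤ (n * (ℓ + 1) + 2) ^ (n + 1) := Nat.pow_le_pow_right (by omega) (by omega)
  · intro p
    have h1 : |∏ x, cf (r (e (p.1 x))) (a x) (p.2 x)| ≤ 1 := by
      rw [Finset.abs_prod]
      exact Finset.prod_le_one (fun _ _ => abs_nonneg _) (fun _ _ => abs_cf _ _ _)
    have h2 : |(Equiv.Perm.sign p.1 : ℤ)| = 1 := by
      rcases Int.units_eq_one_or (Equiv.Perm.sign p.1) with h | h <;> simp [h]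
    rw [abs_mul, h2, one_mul]
    exact h1.trans (by exact_mod_cast h1E)
  · intro p l
    rw [Finset.sum_apply]
    refine (Finset.abs_sum_le_sum_abs _ _).trans ?_
    calc ∑ x, |uf (r (e (p.1 x))) (p.2 x) l| ≤ ∑ _x : κ, (ℓ : ℤ) :=
          Finset.sum_le_sum fun x _ => abs_uf _ _ _
      _ = (Fintype.card κ : ℤ) * ℓ := by simp
      _ ≤ (n : ℤ) * ℓ := by
          refine mul_le_mul_of_nonneg_right (by exact_mod_cast hk) (by positivity)
      _ ≤ ((n * (ℓ + 1) + 2 : ℕ) : ℤ) := by push_cast; nlinarith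
      _ ≤ (EE n ℓ : ℤ) := by exact_mod_cast hEE
  · rw [Matrix.det_apply, Fintype.sum_prod_type]
    refine Finset.sum_congr rfl fun σ _ => ?_
    have h1 : ∏ x : κ, (Matrix.of fun l l' : κ => fox (r (e l)) (a l')) (σ x) x =
        ∑ f : κ → Fin ℓ, (∏ x, cf (r (e (σ x))) (a x) (f x)) • X (∑ x, uf (r (e (σ x))) (f x)) := by
      simp only [Matrix.of_apply, fox_eq]
      rw [Finset.prod_univ_sum, Fintype.piFinset_univ]
      exact Finset.sum_congr rfl fun f _ => prod_X _ _ _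
    rw [h1, Finset.smul_sum]
    refine Finset.sum_congr rfl fun f _ => ?_
    rw [mul_smul]
    rfl


theorem taskSZ : TaskSZ := by
  intro n ℓ m j r a hmn
  exact taskSZ' n ℓ m {l : Fin m // l.1 < j} (by
    have := Fintype.card_subtype_le (fun l : Fin m => l.1 < j)
    simpa using this) (fun l => l.1) r a hmn

end Pool.Agent.H40R3.RM
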